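import Mathlib
import Pool.Agent.Run7.h533.Main

/-!
# Left-invariant pluriclosed flow is immortal, and `T = τ*`

Let `(M, J)` be a complex manifold carrying a global smooth real frame `Z₁, …, Z_m` in which the
brackets `[Z_i, Z_j]` and the complex structure `J` have constant coefficients (for instance a
quotient of a Lie group by a discrete subgroup, with a left-invariant complex structure), and let
`ω₀` be a pluriclosed metric with constant coefficients in the frame. Then the pluriclosed flow
starting at `ω₀` exists for all times and the cohomological bound is infinite as well. The Lie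
algebra spanned by the frame is arbitrary: it need not be nilpotent, solvable or unimodular.
-/

set_option autoImplicit false

namespace Pool.Agent.Results.MP_c1ddea_gt.LeftInvariant

open scoped Manifold ContDiff
open Run7.h533

/-- `T(ω₀) = τ*(ω₀) = ∞` for pluriclosed structures with constant coefficients in a global frame
with constant structure functions. -/
theorem result {E : Type*} [NormedAddCommGroup E] [NormedSpace ℝ E] [FiniteDimensional ℝ E]
    {M : Type*} [TopologicalSpace M] [ChartedSpace E M] [IsManifold 𝓘(ℝ, E) ∞ M] [Nonempty M]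
    {S : ComplexStr E M} {m : ℕ} (Z : Fin m → VF E M)
    (hZ : IsLocalFrameOn 𝓘(ℝ, E) E ∞ Z Set.univ)
    (c : Fin m → Fin m → Fin m → ℝ) (hc : ∀ i j x, lie (Z i) (Z j) x = ∑ k, c i j k • Z k x)
    (J : Fin m → Fin m → ℝ) (hJ : ∀ i x, S.J x (Z i x) = ∑ k, J i k • Z k x)
    (g₀ : HermMetric S) (a : Fin m → Fin m → ℝ) (ha : ∀ i j x, g₀.g x (Z i x) (Z j x) = a i j)
    (hp : g₀.Pluriclosed) :
    maximalTime g₀ = cohomologicalTime g₀ ∧ maximalTime g₀ = ⊤ := by
  have h := main_aux (F := ⟨Z, hZ⟩) hc hJ ha hp
  exact ⟨h.1.trans h.2.symm, h.1⟩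

end Pool.Agent.Results.MP_c1ddea_gt.LeftInvariant
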